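import Pool.Agent.H89.U4.Sq

/-!
# Project U4 (MP_0c7934_co): module LEVE
-/

namespace Pool.Agent.H34.U4

open Pool.Agent.H26.U Pool.Agent.H89.U4

lemma hz_neg_sq {n : ℕ} [NeZero n] (v : ZMod n) : hz (-v) ^ 2 = hz v ^ 2 := by
  have h1 := hz_sq v
  have h2 := hz_sq (-v)
  rw [ez_neg] at h2
  have h3 : (star (ez v)).re = (ez v).re := by
    rw [Complex.star_def, Complex.conj_re]
  rw [h3] at h2
  linarith

lemma abs_hz_neg {n : ℕ} [NeZero n] (v : ZMod n) : |hz (-v)| = |hz v| :=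
  (sq_eq_sq_iff_abs_eq_abs _ _).1 (hz_neg_sq v)

/-- Jordan's inequality for the half angle sine -/
lemma hz_ge {n : ℕ} [NeZero n] (k : ℕ) (hk : 2 * k ≤ n) :
    2 * (k : ℝ) / n ≤ |hz (k : ZMod n)| := by
  have hn0 : 0 < n := Nat.pos_of_ne_zero (NeZero.ne n)
  have hnR : (0 : ℝ) < n := by exact_mod_cast hn0
  rw [abs_hz_natCast]
  have hkR : 2 * (k : ℝ) ≤ n := by exact_mod_cast hk
  have hk0 : (0 : ℝ) ≤ k := Nat.cast_nonneg k
  have h1 : Real.pi * ((k : ℝ) / n) ≤ Real.pi / 2 := by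
    have : (k : ℝ) / n ≤ 1 / 2 := by
      rw [div_le_div_iff₀ hnR (by norm_num)]
      linarith
    have hp := Real.pi_pos
    nlinarith
  have h2 := Real.mul_le_sin (x := Real.pi * ((k : ℝ) / n)) (by positivity) h1
  refine le_trans (le_of_eq ?_) (h2.trans (le_abs_self _))
  have hp := Real.pi_pos.ne'
  field_simp

theorem LEVE : S_LEVE := by
  intro n _ μ t hμ hnt x hx hx2
  have hn0 : 0 < n := Nat.pos_of_ne_zero (NeZero.ne n)
  have hnR : (0 : ℝ) < n := by exact_mod_cast hn0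
  have hμR : (0 : ℝ) < μ := by exact_mod_cast (by omega : 0 < μ)
  obtain ⟨c, hc⟩ : ∃ c : ℤ, c = x.valMinAbs := ⟨_, rfl⟩
  have hcc : (c : ZMod n) = x := by rw [hc, ZMod.coe_valMinAbs]
  have hc0 : c ≠ 0 := by
    intro h
    rw [h] at hcc
    apply hx
    rw [← hcc, Int.cast_zero]
  obtain ⟨a, ha⟩ : ∃ a : ℕ, a = c.natAbs := ⟨_, rfl⟩
  have ha0 : 0 < a := by rw [ha]; exact Int.natAbs_pos.mpr hc0
  have hale : a ≤ n / 2 := by rw [ha, hc]; exact ZMod.natAbs_valMinAbs_le _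
  have hna : n ≤ a ^ 2 := by
    have h1 : (n : ℤ) ∣ c ^ 2 := by
      rw [← ZMod.intCast_zmod_eq_zero_iff_dvd]
      push_cast
      rw [hcc, hx2]
    have h2 : n ∣ a ^ 2 := by
      have h3 := Int.natAbs_dvd_natAbs.mpr h1
      rw [Int.natAbs_natCast, Int.natAbs_pow, ← ha] at h3
      exact h3
    exact Nat.le_of_dvd (by positivity) h2
  have ht : 1 ≤ t := by
    rcases Nat.eq_zero_or_pos t with h | h
    · exfalso
      rw [h] at hnt
      simp only [mul_zero, pow_zero] at hnt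
      have h1 : n = 1 := by omega
      subst h1
      exact hx (Subsingleton.elim _ _)
    · exact h
  have hPt : n < 2 * μ ^ (t - 1 + 1) * a := by
    rw [Nat.sub_add_cancel ht]
    have h1 : n ^ 2 ≤ (μ ^ t * a) ^ 2 := by
      calc n ^ 2 = n * n := pow_two n
        _ ≤ μ ^ (2 * t) * a ^ 2 := Nat.mul_le_mul hnt hna
        _ = (μ ^ t * a) ^ 2 := by rw [mul_pow, ← pow_mul, mul_comm 2 t]
    have h2 : n ≤ μ ^ t * a := (Nat.pow_le_pow_iff_left two_ne_zero).mp h1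
    have h3 : 2 * μ ^ t * a = 2 * (μ ^ t * a) := by ring
    rw [h3]
    omega
  have hex : ∃ l, n < 2 * μ ^ (l + 1) * a := ⟨t - 1, hPt⟩
  classical
  obtain ⟨l, hl⟩ : ∃ l, l = Nat.find hex := ⟨_, rfl⟩
  have hl1 : n < 2 * μ ^ (l + 1) * a := by rw [hl]; exact Nat.find_spec hex
  have hlt : l < t := by
    have h1 : l ≤ t - 1 := by rw [hl]; exact Nat.find_min' hex hPt
    omega
  have hl2 : 2 * (μ ^ l * a) ≤ n := by
    rcases Nat.eq_zero_or_pos l with h | h
    · rw [h, pow_zero, one_mul]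
      omega
    · have h1 := Nat.find_min hex (m := l - 1) (by rw [← hl]; omega)
      rw [Nat.sub_add_cancel h] at h1
      have h3 : 2 * μ ^ l * a = 2 * (μ ^ l * a) := by ring
      omega
  -- the value at level `l`
  have habs : |hz (((μ ^ l : ℕ) : ZMod n) * x)| = |hz ((μ ^ l * a : ℕ) : ZMod n)| := by
    rcases Int.natAbs_eq c with h | h
    · rw [← ha] at h
      have : x = (a : ZMod n) := by
        rw [← hcc, h, Int.cast_natCast]
      rw [this, Nat.cast_mul]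
    · rw [← ha] at h
      have : x = -(a : ZMod n) := by
        rw [← hcc, h, Int.cast_neg, Int.cast_natCast]
      rw [this, Nat.cast_mul, mul_neg, abs_hz_neg]
  have h4 : 1 / (μ : ℝ) ≤ |hz (((μ ^ l : ℕ) : ZMod n) * x)| := by
    rw [habs]
    refine le_trans ?_ (hz_ge _ hl2)
    have h5 : (n : ℝ) < 2 * (μ : ℝ) ^ (l + 1) * a := by exact_mod_cast hl1
    rw [div_le_div_iff₀ hμR hnR]
    rw [pow_succ] at h5
    push_cast
    nlinarith
  calc 1 / (μ : ℝ) ^ 2 = (1 / (μ : ℝ)) ^ 2 := by rw [div_pow, one_pow]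
    _ ≤ |hz (((μ ^ l : ℕ) : ZMod n) * x)| ^ 2 := pow_le_pow_left₀ (by positivity) h4 2
    _ = hz (((μ ^ l : ℕ) : ZMod n) * x) ^ 2 := sq_abs _
    _ ≤ ∑ l ∈ Finset.range t, hz (((μ ^ l : ℕ) : ZMod n) * x) ^ 2 :=
        Finset.single_le_sum (f := fun l => hz (((μ ^ l : ℕ) : ZMod n) * x) ^ 2)
          (fun i _ => sq_nonneg _) (Finset.mem_range.mpr hlt)

end Pool.Agent.H34.U4
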