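import Pool.Agent.H26.U.Ez
import Pool.Agent.H89.U4.Stmts

/-!
# Project U4 (MP_0c7934_co): modules PVE, INVE
-/

namespace Pool.Agent.H34.U4

open Pool.Agent.H26.U Pool.Agent.H89.U4

variable {n : ℕ} [NeZero n]

/-- orthogonality -/
lemma orthE {c : ZMod n} (hc : IsUnit c) (x x' : ZMod n) :
    ∑ y, ez (-(c * x' * y)) * ez (c * x * y) = if x' = x then (n : ℂ) else 0 := by
  have h1 : ∀ y : ZMod n, ez (-(c * x' * y)) * ez (c * x * y) =
      ez ((c * (x - x')) * y) := by
    intro y
    rw [← ez_add]
    congr 1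
    ring
  rw [Finset.sum_congr rfl fun y _ => h1 y, sum_ez_mul]
  have h2 : c * (x - x') = 0 ↔ x' = x := by
    rw [hc.mul_right_eq_zero, sub_eq_zero]
    exact eq_comm
  simp only [h2]

theorem PVE : S_PVE := by
  intro n _ c hc g
  have h1 : ∀ y : ZMod n, ((∑ x, g x * ez (-(c * x * y))).re) ^ 2 ≤
      ‖∑ x, g x * ez (-(c * x * y))‖ ^ 2 := by
    intro y
    rw [← sq_abs]
    exact pow_le_pow_left₀ (abs_nonneg _) (Complex.abs_re_le_norm _) 2
  refine (Finset.sum_le_sum fun y _ => h1 y).trans (le_of_eq ?_)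
  have h2 : ((∑ y, ‖∑ x, g x * ez (-(c * x * y))‖ ^ 2 : ℝ) : ℂ) =
      ((n * ∑ x, ‖g x‖ ^ 2 : ℝ) : ℂ) := by
    push_cast
    have e1 : ∀ z : ℂ, ((‖z‖ : ℂ)) ^ 2 = z * star z := by
      intro z
      rw [Complex.star_def, Complex.mul_conj, Complex.normSq_eq_norm_sq]
      push_cast
      rfl
    calc ∑ y, ((‖∑ x, g x * ez (-(c * x * y))‖ : ℂ)) ^ 2
        = ∑ y, (∑ x, g x * ez (-(c * x * y))) * star (∑ x, g x * ez (-(c * x * y))) :=
          Finset.sum_congr rfl fun y _ => e1 _
      _ = ∑ y, ∑ x, ∑ x', g x * star (g x') * (ez (-(c * x * y)) * ez (c * x' * y)) := by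
          refine Finset.sum_congr rfl fun y _ => ?_
          rw [star_sum, Finset.sum_mul_sum]
          refine Finset.sum_congr rfl fun x _ => Finset.sum_congr rfl fun x' _ => ?_
          have e2 : star (g x' * ez (-(c * x' * y))) = star (g x') * ez (c * x' * y) := by
            rw [star_mul', ← ez_neg, neg_neg]
          rw [e2]
          ring
      _ = ∑ x, ∑ x', g x * star (g x') * ∑ y, ez (-(c * x * y)) * ez (c * x' * y) := by
          rw [Finset.sum_comm]
          refine Finset.sum_congr rfl fun x _ => ?_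
          rw [Finset.sum_comm]
          refine Finset.sum_congr rfl fun x' _ => ?_
          rw [Finset.mul_sum]
      _ = ∑ x, ∑ x', g x * star (g x') * (if x = x' then (n : ℂ) else 0) := by
          refine Finset.sum_congr rfl fun x _ => Finset.sum_congr rfl fun x' _ => ?_
          rw [orthE hc]
      _ = ∑ x, (n : ℂ) * (‖g x‖ : ℂ) ^ 2 := by
          refine Finset.sum_congr rfl fun x _ => ?_
          rw [Finset.sum_eq_single x]
          · rw [if_pos rfl, e1]
            ring
          · intro b _ hb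
            rw [if_neg (Ne.symm hb), mul_zero]
          · intro h
            exact absurd (Finset.mem_univ x) h
      _ = (n : ℂ) * ∑ x, (‖g x‖ : ℂ) ^ 2 := by rw [Finset.mul_sum]
  exact_mod_cast h2

theorem INVE : S_INVE := by
  intro n _ c hc g hg x
  have hreal : ∀ y : ZMod n, (((∑ x', g x' * ez (-(c * x' * y))).re : ℝ) : ℂ) =
      ∑ x', g x' * ez (-(c * x' * y)) := by
    intro y
    rw [← Complex.conj_eq_iff_re, ← Complex.star_def, star_sum,
      ← Equiv.sum_comp (Equiv.neg (ZMod n))]
    refine Finset.sum_congr rfl fun x' _ => ?_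
    simp only [Equiv.neg_apply]
    rw [star_mul', hg x', star_star, ← ez_neg]
    congr 2
    ring
  calc ∑ y, (((∑ x', g x' * ez (-(c * x' * y))).re : ℝ) : ℂ) * ez (c * x * y)
      = ∑ y, ∑ x', g x' * (ez (-(c * x' * y)) * ez (c * x * y)) := by
        refine Finset.sum_congr rfl fun y _ => ?_
        rw [hreal, Finset.sum_mul]
        refine Finset.sum_congr rfl fun x' _ => ?_
        ring
    _ = ∑ x', g x' * ∑ y, ez (-(c * x' * y)) * ez (c * x * y) := by
        rw [Finset.sum_comm]
        refine Finset.sum_congr rfl fun x' _ => ?_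
        rw [Finset.mul_sum]
    _ = ∑ x', g x' * (if x' = x then (n : ℂ) else 0) := by
        refine Finset.sum_congr rfl fun x' _ => ?_
        rw [orthE hc]
    _ = n * g x := by
        rw [Finset.sum_eq_single x]
        · rw [if_pos rfl, mul_comm]
        · intro b _ hb
          rw [if_neg hb, mul_zero]
        · intro h
          exact absurd (Finset.mem_univ x) h

end Pool.Agent.H34.U4
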